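import Mathlib.Algebra.Module.StablyFree.Basic

set_option autoImplicit false

namespace Pool.Agent.MP_f67ce1_al

open scoped DirectSum

universe u

/-- The part of `M` whose coordinates above `i` vanish. -/
def lowPart {R : Type u} [Ring R] {M : Type u} [AddCommGroup M] [Module R M]
    {V : Type u} [AddCommGroup V] [Module R V] {ι : Type} [LinearOrder ι]
    (p : ι → M →ₗ[R] V) (i : ι) : Submodule R M where
  carrier := {x | ∀ j, i < j → p j x = 0}
  add_mem' := by
    intro a b ha hb j hj
    simp [ha j hj, hb j hj]
  zero_mem' := by intro j _; simp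
  smul_mem' := by
    intro c x hx j hj
    simp [hx j hj]

/-- Kaplansky's filtration argument: a module with a well-ordered, point-finite, jointly
injective family of coordinates whose leading-coefficient modules are projective is projective. -/
theorem projective_of_coords {R : Type u} [Ring R] {M : Type u} [AddCommGroup M] [Module R M]
    {V : Type u} [AddCommGroup V] [Module R V] {ι : Type} [LinearOrder ι] [WellFoundedLT ι]
    (p : ι → M →ₗ[R] V) (hfin : ∀ x, {i | p i x ≠ 0}.Finite)
    (hinj : ∀ x, (∀ i, p i x = 0) → x = 0)
    (hproj : ∀ i, Module.Projective R ((lowPart p i).map (p i))) :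
    Module.Projective R M := by
  classical
  -- sections
  have hs : ∀ i, ∃ s : ((lowPart p i).map (p i)) →ₗ[R] M,
      ∀ q, s q ∈ lowPart p i ∧ p i (s q) = q := by
    intro i
    have := hproj i
    let g : lowPart p i →ₗ[R] ((lowPart p i).map (p i)) :=
      LinearMap.codRestrict _ ((p i).domRestrict (lowPart p i))
        (fun x => Submodule.mem_map_of_mem x.2)
    have hg : LinearMap.range g = ⊤ := by
      rw [LinearMap.range_eq_top]
      rintro ⟨q, x, hx, rfl⟩
      exact ⟨⟨x, hx⟩, rfl⟩
    obtain ⟨s, hs⟩ := g.exists_rightInverse_of_surjective hg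
    refine ⟨(lowPart p i).subtype ∘ₗ s, fun q => ⟨(s q).2, ?_⟩⟩
    have := congrArg Subtype.val (LinearMap.congr_fun hs q)
    exact this
  choose s hs using hs
  have := hproj
  let Φ : (⨁ i, ((lowPart p i).map (p i))) →ₗ[R] M := DirectSum.toModule R ι M s
  have hΦ0 : ∀ i (q : ((lowPart p i).map (p i))),
      Φ (DirectSum.lof R ι (fun i => ((lowPart p i).map (p i))) i q) = s i q := by
    intro i q
    exact DirectSum.toModule_lof (M := fun i => ((lowPart p i).map (p i))) (φ := s) R i q
  have hΦ : ∀ z, Φ z = ∑ i ∈ z.support, s i (z i) := by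
    intro z
    conv_lhs => rw [← DirectSum.sum_support_of z]
    rw [map_sum]
    refine Finset.sum_congr rfl fun i _ => ?_
    exact hΦ0 i (z i)
  have hinjΦ : Function.Injective Φ := by
    rw [injective_iff_map_eq_zero]
    intro z hz
    by_contra hne
    have hsupp : z.support.Nonempty := by
      rw [Finset.nonempty_iff_ne_empty]
      intro h
      exact hne (DFinsupp.support_eq_empty.mp h)
    let i := z.support.max' hsupp
    have hi : i ∈ z.support := Finset.max'_mem _ _
    have h1 : p i (Φ z) = z i := by
      rw [hΦ, map_sum, Finset.sum_eq_single i]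
      · exact (hs i _).2
      · intro j hj hji
        have hle : j ≤ i := Finset.le_max' _ _ hj
        exact (hs j _).1 i (lt_of_le_of_ne hle hji)
      · intro h; exact absurd hi h
    rw [hz, map_zero] at h1
    exact (DFinsupp.mem_support_iff.mp hi) (Subtype.ext h1.symm)
  have hlow : ∀ i, ∀ x ∈ lowPart p i, x ∈ LinearMap.range Φ := by
    intro i
    induction i using WellFoundedLT.induction with
    | ind i ih =>
      intro x hx
      let q : ((lowPart p i).map (p i)) := ⟨p i x, Submodule.mem_map_of_mem hx⟩
      have hq : s i q ∈ LinearMap.range Φ :=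
        ⟨_, hΦ0 i q⟩
      have hy : x - s i q ∈ LinearMap.range Φ := by
        by_cases h0 : ∀ j, p j (x - s i q) = 0
        · rw [hinj _ h0]; exact zero_mem _
        · have hne : (hfin (x - s i q)).toFinset.Nonempty := by
            push Not at h0
            obtain ⟨j, hj⟩ := h0
            exact ⟨j, by simpa using hj⟩
          let j := (hfin (x - s i q)).toFinset.max' hne
          have hj : p j (x - s i q) ≠ 0 := by
            have : j ∈ (hfin (x - s i q)).toFinset := Finset.max'_mem _ hne
            exact (Set.Finite.mem_toFinset _).mp this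
          have hji : j < i := by
            rcases lt_trichotomy j i with h | h | h
            · exact h
            · exfalso; apply hj
              rw [h, map_sub, (hs i q).2]; simp [q]
            · exfalso; apply hj
              rw [map_sub, hx j h, (hs i q).1 j h]; simp
          refine ih j hji _ ?_
          intro k hk
          by_contra hk0
          have : k ≤ j := Finset.le_max' _ _ (by simpa using hk0)
          exact absurd hk (not_lt.mpr this)
      have := add_mem hy hq
      simpa using this
  have hsurj : Function.Surjective Φ := by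
    intro x
    by_cases h0 : ∀ j, p j x = 0
    · rw [hinj _ h0]; exact ⟨0, map_zero _⟩
    · have hne : (hfin x).toFinset.Nonempty := by
        push Not at h0
        obtain ⟨j, hj⟩ := h0
        exact ⟨j, by simpa using hj⟩
      refine hlow ((hfin x).toFinset.max' hne) x ?_
      intro k hk
      by_contra hk0
      have : k ≤ (hfin x).toFinset.max' hne := Finset.le_max' _ _ (by simpa using hk0)
      exact absurd hk (not_lt.mpr this)
  exact Module.Projective.of_equiv' (LinearEquiv.ofBijective Φ ⟨hinjΦ, hsurj⟩)

/-- If `1 = l + t` with `l ∈ L`, `t ∈ T` and `L ⊓ T` is projective, then `L` is projective. -/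
theorem projective_of_inf {R : Type u} [Ring R] (L T : Submodule R R) (l t : R) (hl : l ∈ L)
    (ht : t ∈ T) (h1 : l + t = 1) (hp : Module.Projective R (L ⊓ T : Submodule R R)) :
    Module.Projective R L := by
  have hmem : ∀ x : L, (x : R) * t ∈ (L ⊓ T : Submodule R R) := by
    intro x
    refine ⟨?_, T.smul_mem x ht⟩
    have : (x : R) * t = x - x * l := by
      rw [eq_sub_iff_add_eq, ← mul_add, add_comm, h1, mul_one]
    rw [this]
    exact sub_mem x.2 (L.smul_mem x hl)
  let i : L →ₗ[R] (L ⊓ T : Submodule R R) × R :=
    { toFun := fun x => (⟨(x : R) * t, hmem x⟩, (x : R))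
      map_add' := by intro x y; ext <;> simp [add_mul]
      map_smul' := by intro c x; ext <;> simp [mul_assoc] }
  let r : ((L ⊓ T : Submodule R R) × R) →ₗ[R] L :=
    { toFun := fun y => ⟨(y.1 : R) + y.2 * l, add_mem y.1.2.1 (L.smul_mem y.2 hl)⟩
      map_add' := by intro x y; ext; simp [add_mul]; abel
      map_smul' := by intro c x; ext; simp [mul_add, mul_assoc] }
  refine Module.Projective.of_split i r ?_
  ext x
  simp only [i, r, LinearMap.comp_apply, LinearMap.coe_mk, AddHom.coe_mk, LinearMap.id_apply]
  rw [← mul_add, add_comm, h1, mul_one]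

end Pool.Agent.MP_f67ce1_al
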