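import Mathlib.GroupTheory.GroupAction.Ring
import Mathlib.Tactic.SuppressCompilation
import Mathlib.Algebra.Ring.MinimalAxioms
import Pool.Agent.MP_f67ce1_al.Kaplansky

set_option autoImplicit false
set_option linter.unusedSectionVars false

namespace Pool.Agent.MP_f67ce1_al

/-- A strictly increasing chain of principal left ideals of uncountable cofinality has a
non-projective union. -/
theorem not_projective_chain {A : Type} [Ring A] {Ω : Type} [LinearOrder Ω] [Nonempty Ω]
    (hcof : ∀ a : ℕ → Ω, ∃ b, ∀ n, a n ≤ b) (ε : Ω → A)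
    (hε : ∀ a b, a ≤ b → ε a * ε b = ε a) (hstrict : ∀ a, ∃ b, ∀ r, ε b ≠ r * ε a) :
    ¬ Module.Projective A (Submodule.span A (Set.range ε)) := by
  classical
  intro h
  obtain ⟨σ, hσ⟩ := h.out
  have hbd : ∀ x ∈ Submodule.span A (Set.range ε), ∃ a, ∀ b, a ≤ b → x * ε b = x := by
    intro x hx
    induction hx using Submodule.span_induction with
    | mem x hx =>
      obtain ⟨a, rfl⟩ := hx
      exact ⟨a, hε a⟩
    | zero => exact ⟨Classical.arbitrary _, fun b _ => by simp⟩
    | add x y _ _ hx hy =>
      obtain ⟨a, ha⟩ := hx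
      obtain ⟨a', ha'⟩ := hy
      refine ⟨max a a', fun b hb => ?_⟩
      rw [add_mul, ha b (le_trans (le_max_left _ _) hb), ha' b (le_trans (le_max_right _ _) hb)]
    | smul c x _ hx =>
      obtain ⟨a, ha⟩ := hx
      refine ⟨a, fun b hb => ?_⟩
      rw [smul_eq_mul, mul_assoc, ha b hb]
  let η : Ω → Submodule.span A (Set.range ε) := fun a => ⟨ε a, Submodule.subset_span ⟨a, rfl⟩⟩
  let F : Ω → Finset (Submodule.span A (Set.range ε)) := fun a => (σ (η a)).support
  have hmono : ∀ a b, a ≤ b → F a ⊆ F b := by
    intro a b hab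
    have : η a = ε a • η b := Subtype.ext (hε a b hab).symm
    simp only [F]
    rw [this, map_smul]
    exact Finsupp.support_smul
  have hmax : ∃ a0, ∀ b, (F b).card ≤ (F a0).card := by
    by_contra hcon
    push Not at hcon
    have : ∀ n : ℕ, ∃ a, n ≤ (F a).card := by
      intro n
      induction n with
      | zero => exact ⟨Classical.arbitrary _, Nat.zero_le _⟩
      | succ n ih =>
        obtain ⟨a, ha⟩ := ih
        obtain ⟨b, hb⟩ := hcon a
        exact ⟨b, by omega⟩
    choose a ha using this
    obtain ⟨b, hb⟩ := hcof a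
    have h1 := ha ((F b).card + 1)
    have h2 := Finset.card_le_card (hmono _ _ (hb ((F b).card + 1)))
    omega
  obtain ⟨a0, ha0⟩ := hmax
  have hF : ∀ b, a0 ≤ b → F b = F a0 := fun b hb =>
    (Finset.eq_of_subset_of_card_le (hmono _ _ hb) (ha0 b)).symm
  choose g hg using fun x : Submodule.span A (Set.range ε) => hbd x x.2
  obtain ⟨c, hc⟩ : ∃ c, a0 ≤ c ∧ ∀ x ∈ F a0, g x ≤ c := by
    refine ⟨(insert a0 ((F a0).image g)).max' (Finset.insert_nonempty _ _), ?_, ?_⟩
    · exact Finset.le_max' _ _ (Finset.mem_insert_self _ _)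
    · intro x hx
      exact Finset.le_max' _ _ (Finset.mem_insert_of_mem (Finset.mem_image_of_mem g hx))
  obtain ⟨b, hb⟩ := hstrict c
  have key : ε (max b c) * ε c = ε (max b c) := by
    have h1 := congrArg Subtype.val (hσ (η (max b c)))
    rw [Finsupp.linearCombination_apply, Finsupp.sum] at h1
    simp only [id, AddSubmonoidClass.coe_finsetSum, SetLike.val_smul, smul_eq_mul, η] at h1
    rw [← h1, Finset.sum_mul]
    refine Finset.sum_congr rfl fun x hx => ?_
    have hx' : x ∈ F a0 := by
      rw [← hF (max b c) (le_trans hc.1 (le_max_right _ _))]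
      exact hx
    rw [mul_assoc, hg x c (hc.2 x hx')]
  apply hb (ε b * ε (max b c))
  rw [mul_assoc, key, hε b _ (le_max_left _ _)]

section Dor

/-- The ring `K ⊕ T` with multiplication `t * t' = π t • t'` on `T`. -/
@[ext] structure Dor (K : Type) {S : Type} [CommRing S] {T : Type} [AddCommGroup T] [Module S T]
    (π : T →ₗ[S] S) where
  /-- scalar part -/
  a : K
  /-- module part -/
  t : T

variable {K : Type} [CommRing K] {S : Type} [CommRing S] [Algebra K S]
  {T : Type} [AddCommGroup T] [Module S T] {π : T →ₗ[S] S}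

namespace Dor

instance : Add (Dor K π) := ⟨fun x y => ⟨x.a + y.a, x.t + y.t⟩⟩
instance : Neg (Dor K π) := ⟨fun x => ⟨-x.a, -x.t⟩⟩
instance : Zero (Dor K π) := ⟨⟨0, 0⟩⟩
instance : One (Dor K π) := ⟨⟨1, 0⟩⟩
instance : Mul (Dor K π) :=
  ⟨fun x y => ⟨x.a * y.a, (algebraMap K S x.a + π x.t) • y.t + algebraMap K S y.a • x.t⟩⟩

@[simp] theorem add_a (x y : Dor K π) : (x + y).a = x.a + y.a := rfl
@[simp] theorem add_t (x y : Dor K π) : (x + y).t = x.t + y.t := rfl
@[simp] theorem neg_a (x : Dor K π) : (-x).a = -x.a := rfl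
@[simp] theorem neg_t (x : Dor K π) : (-x).t = -x.t := rfl
@[simp] theorem zero_a : (0 : Dor K π).a = 0 := rfl
@[simp] theorem zero_t : (0 : Dor K π).t = 0 := rfl
@[simp] theorem one_a : (1 : Dor K π).a = 1 := rfl
@[simp] theorem one_t : (1 : Dor K π).t = 0 := rfl
@[simp] theorem mul_a (x y : Dor K π) : (x * y).a = x.a * y.a := rfl
@[simp] theorem mul_t (x y : Dor K π) :
    (x * y).t = (algebraMap K S x.a + π x.t) • y.t + algebraMap K S y.a • x.t := rfl

instance : Ring (Dor K π) :=
  Ring.ofMinimalAxioms
    (by intro x y z; ext <;> simp [add_assoc])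
    (by intro x; ext <;> simp)
    (by intro x; ext <;> simp)
    (by
      intro x y z; ext
      · simp [mul_assoc]
      · simp only [mul_t, mul_a, map_mul, map_add, map_smul, smul_eq_mul]; module)
    (by intro x; ext <;> simp)
    (by intro x; ext <;> simp)
    (by
      intro x y z; ext
      · simp [mul_add]
      · simp only [mul_t, add_a, add_t, map_add]; module)
    (by
      intro x y z; ext
      · simp [add_mul]
      · simp only [mul_t, add_a, add_t, map_add]; module)

/-- The canonical map to `S`. -/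
def toS : Dor K π →+* S where
  toFun x := algebraMap K S x.a + π x.t
  map_one' := by simp
  map_mul' := by
    intro x y
    simp only [mul_t, mul_a, map_mul, map_add, map_smul, smul_eq_mul]; ring
  map_zero' := by simp
  map_add' := by
    intro x y
    simp only [add_t, add_a, map_add]; ring

theorem toS_apply (x : Dor K π) : toS x = algebraMap K S x.a + π x.t := rfl

instance : Module (Dor K π) S := Module.compHom S (toS (K := K) (π := π))

theorem smul_def (x : Dor K π) (s : S) : x • s = toS x * s := rfl

/-- The module part as a left ideal. -/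
def TT : Submodule (Dor K π) (Dor K π) where
  carrier := {x | x.a = 0}
  add_mem' := by
    intro x y hx hy
    simp only [Set.mem_ofPred_eq] at *
    simp [hx, hy]
  zero_mem' := rfl
  smul_mem' := by
    intro x y hy
    simp only [Set.mem_ofPred_eq] at *
    simp [hy]

theorem mem_TT (x : Dor K π) : x ∈ TT ↔ x.a = 0 := Iff.rfl

end Dor

end Dor

end Pool.Agent.MP_f67ce1_al
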