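import Mathlib.Tactic.Monotonicity.Lemmas
import Mathlib.Algebra.Field.ZMod
import Mathlib.LinearAlgebra.Countable
import Mathlib.Data.Finsupp.Pointwise
import Pool.Agent.MP_f67ce1_al.Dorroh

set_option autoImplicit false

namespace Pool.Agent.MP_f67ce1_al.Om

open Pool.Agent.MP_f67ce1_al

/-- The field with two elements. -/
abbrev K := ZMod 2

theorem K_cases (c : K) : c = 0 ∨ c = 1 := by revert c; decide

/-- The first uncountable ordinal as a well-ordered type. -/
abbrev Ω : Type := (Cardinal.aleph 1).ord.ToType

theorem countable_Iic (a : Ω) : (Set.Iic a).Countable := by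
  have h := Cardinal.mk_Iio_toType_ord_lt a
  have h2 : (Set.Iio a).Countable := by
    rw [← Cardinal.le_aleph0_iff_set_countable]
    exact Order.lt_succ_iff.mp (h.trans_eq Cardinal.succ_aleph0.symm)
  rw [← Set.Iio_insert]
  exact h2.insert a

theorem not_countable_univ : ¬ (Set.univ : Set Ω).Countable := by
  rw [← Cardinal.le_aleph0_iff_set_countable, Cardinal.mk_univ, Cardinal.mk_ord_toType]
  exact not_le.mpr Cardinal.aleph0_lt_aleph_one

theorem exists_gt_all (a : ℕ → Ω) : ∃ b, ∀ n, a n < b := by
  by_contra h
  push Not at h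
  apply not_countable_univ
  refine (Set.countable_iUnion fun n => countable_Iic (a n)).mono fun b _ => ?_
  obtain ⟨n, hn⟩ := h b
  exact Set.mem_iUnion.mpr ⟨n, hn⟩

instance : Nonempty Ω := by
  by_contra h
  apply not_countable_univ
  have : IsEmpty Ω := not_nonempty_iff.mp h
  exact Set.to_countable _

theorem exists_gt' (a : Ω) : ∃ b, a < b := by
  obtain ⟨b, hb⟩ := exists_gt_all fun _ => a
  exact ⟨b, hb 0⟩

/-- Indicator function of an initial interval. -/
noncomputable def e0 (a : Ω) : Ω → K := fun x => if x ≤ a then 1 else 0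

theorem e0_mul (a b : Ω) : e0 a * e0 b = e0 (min a b) := by
  funext x
  by_cases ha : x ≤ a <;> by_cases hb : x ≤ b <;> simp [e0, ha, hb]

/-- The interval algebra of `ω₁`. -/
def SS : Subalgebra K (Ω → K) := Algebra.adjoin K (Set.range e0)

/-- The interval algebra as a type. -/
def S : Type := SS

noncomputable instance : CommRing S := inferInstanceAs (CommRing SS)
noncomputable instance : Algebra K S := inferInstanceAs (Algebra K SS)

/-- The underlying function. -/
noncomputable def val : S →ₐ[K] (Ω → K) := SS.val

theorem val_injective : Function.Injective val := Subtype.val_injective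

theorem val_mem (s : S) : val s ∈ SS := Subtype.property (show SS from s)

/-- The idempotent `e a` of `S`. -/
noncomputable def e (a : Ω) : S := (⟨e0 a, Algebra.subset_adjoin ⟨a, rfl⟩⟩ : SS)

theorem val_e (a : Ω) : val (e a) = e0 a := rfl

theorem e_mul (a b : Ω) (h : a ≤ b) : e a * e b = e a := by
  apply val_injective
  rw [map_mul, val_e, val_e, e0_mul, min_eq_left h]

theorem sq_self (s : S) : s * s = s := by
  apply val_injective
  funext x
  rw [map_mul, Pi.mul_apply]
  rcases K_cases (val s x) with h | h <;> simp [h]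

/-- The span of the indicators below `a`. -/
def W (a : Ω) : Submodule K (Ω → K) :=
  Submodule.span K (Set.range fun b : Set.Iic a => e0 b)

theorem W_countable (a : Ω) : (W a : Set (Ω → K)).Countable := by
  have := (countable_Iic a).to_subtype
  have h : Countable (W a) := by
    unfold W
    infer_instance
  exact Set.countable_coe_iff.mp h

theorem W_mul (a : Ω) (x y : Ω → K) (hx : x ∈ W a) (hy : y ∈ W a) : x * y ∈ W a := by
  induction hx using Submodule.span_induction with
  | mem x hx =>
    obtain ⟨b, rfl⟩ := hx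
    induction hy using Submodule.span_induction with
    | mem y hy =>
      obtain ⟨c, rfl⟩ := hy
      simp only [e0_mul]
      exact Submodule.subset_span ⟨⟨min b c, Set.mem_Iic.mpr (le_trans (min_le_left _ _) (Set.mem_Iic.mp b.2))⟩, rfl⟩
    | zero => simp
    | add y z _ _ hy hz => rw [mul_add]; exact add_mem hy hz
    | smul c y _ hy => rw [mul_smul_comm]; exact Submodule.smul_mem _ _ hy
  | zero => simp
  | add x z _ _ hx hz => rw [add_mul]; exact add_mem hx hz
  | smul c x _ hx => rw [smul_mul_assoc]; exact Submodule.smul_mem _ _ hx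

theorem e_mul_mem_W (a : Ω) (s : Ω → K) (hs : s ∈ SS) : e0 a * s ∈ W a := by
  have ha : e0 a ∈ W a := Submodule.subset_span ⟨⟨a, le_refl a⟩, rfl⟩
  induction hs using Algebra.adjoin_induction with
  | mem x hx =>
    obtain ⟨b, rfl⟩ := hx
    rw [e0_mul]
    exact Submodule.subset_span ⟨⟨min a b, Set.mem_Iic.mpr (min_le_left _ _)⟩, rfl⟩
  | algebraMap r =>
    rw [← Algebra.commutes, ← Algebra.smul_def]
    exact Submodule.smul_mem _ _ ha
  | add x y _ _ hx hy => rw [mul_add]; exact add_mem hx hy
  | mul x y _ _ hx hy =>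
    have : e0 a * (x * y) = (e0 a * x) * (e0 a * y) := by
      have h := e0_mul a a
      rw [min_self] at h
      conv_lhs => rw [← h]
      ring
    rw [this]
    exact W_mul a _ _ hx hy

theorem countable_below (a : Ω) : {s : S | e a * s = s}.Countable := by
  refine ((W_countable a).preimage val_injective).mono ?_
  intro s hs
  have h := e_mul_mem_W a _ (val_mem s)
  have hs' : e a * s = s := hs
  have h2 : e0 a * val s = val s := by rw [← val_e, ← map_mul, hs']
  rw [h2] at h
  exact h

/-- The projective module `⨁ S e_a`. -/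
def TM : Submodule S (Ω →₀ S) where
  carrier := {t | ∀ a, e a * t a = t a}
  add_mem' := by
    intro x y hx hy a
    simp [mul_add, hx a, hy a]
  zero_mem' := by intro a; simp
  smul_mem' := by
    intro c x hx a
    simp only [Finsupp.smul_apply, smul_eq_mul]
    rw [mul_left_comm, hx a]

/-- The module as a type. -/
abbrev T : Type := TM

/-- Sum of the coordinates. -/
noncomputable def π : T →ₗ[S] S := (Finsupp.linearCombination S fun _ : Ω => (1 : S)) ∘ₗ TM.subtype

/-- The ring. -/
abbrev R : Type := Dor K (S := S) (T := T) π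

/-- The element of `T` with a single coordinate. -/
noncomputable def sing (a : Ω) (s : S) : T :=
  ⟨Finsupp.single a (e a * s), fun b => by
    by_cases h : a = b
    · subst h; simp [← mul_assoc, sq_self]
    · simp [h]⟩

theorem π_sing (a : Ω) (s : S) : π (sing a s) = e a * s := by
  simp only [π, sing, LinearMap.comp_apply, Submodule.subtype_apply,
    Finsupp.linearCombination_single, smul_eq_mul, mul_one]

/-- The `R`-linear embedding of `S e_a` in `R`. -/
noncomputable def ι (a : Ω) : S →ₗ[R] R where
  toFun s := ⟨0, sing a s⟩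
  map_add' := by
    intro x y
    apply Dor.ext
    · simp
    · apply Subtype.ext
      simp [sing, mul_add]
  map_smul' := by
    intro c x
    apply Dor.ext
    · simp
    · apply Subtype.ext
      simp only [RingHom.id_apply, smul_eq_mul, Dor.mul_t, map_zero, zero_smul, add_zero,
        Dor.smul_def, Dor.toS_apply, sing]
      rw [Submodule.coe_smul, Finsupp.smul_single, smul_eq_mul, mul_left_comm]

theorem toS_ι (a : Ω) (s : S) : Dor.toS (ι a s) = e a * s := by
  simp [ι, Dor.toS_apply, π_sing]

theorem proj_below (a : Ω) (Q : Submodule R S) (hQ : ∀ q ∈ Q, e a * q = q) :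
    Module.Projective R Q := by
  classical
  have hc : (Q : Set S).Countable := (countable_below a).mono fun q hq => hQ q hq
  obtain ⟨g, hg⟩ := hc.exists_eq_range ⟨0, Q.zero_mem⟩
  have hgQ : ∀ n, g n ∈ Q := fun n => by
    have : g n ∈ (Q : Set S) := by rw [hg]; exact ⟨n, rfl⟩
    exact this
  have hmul : ∀ s : S, ∀ q ∈ Q, s * q ∈ Q := by
    intro s q hq
    have := Q.smul_mem (ι a s) hq
    rw [Dor.smul_def, toS_ι, mul_comm (e a), mul_assoc, hQ q hq] at this
    exact this
  let c : ℕ → S := fun n => ∏ i ∈ Finset.range n, (1 - g i)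
  let t : ℕ → S := fun n => c n * g n
  have htQ : ∀ n, t n ∈ Q := fun n => hmul _ _ (hgQ n)
  have hsum : ∀ n, ∑ i ∈ Finset.range n, t i = 1 - c n := by
    intro n
    induction n with
    | zero => simp [c]
    | succ n ih =>
      rw [Finset.sum_range_succ, ih]
      simp only [c, t, Finset.prod_range_succ]
      ring
  have hkill : ∀ m n, m < n → g m * c n = 0 := by
    intro m n hmn
    simp only [c]
    rw [← Finset.mul_prod_erase _ _ (Finset.mem_range.mpr hmn), ← mul_assoc, mul_sub, sq_self]
    simp
  have hfin : ∀ x : Q, ∃ m, ∀ n, m ≤ n → (x : S) * c n = 0 := by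
    intro x
    have : (x : S) ∈ Set.range g := by rw [← hg]; exact x.2
    obtain ⟨m, hm⟩ := this
    exact ⟨m + 1, fun n hn => by rw [← hm]; exact hkill m n hn⟩
  have hfin' : ∀ x : Q, (Function.support fun n => ι a ((x : S) * t n)).Finite := by
    intro x
    obtain ⟨m, hm⟩ := hfin x
    refine (Set.finite_lt_nat m).subset fun n hn => ?_
    by_contra h
    apply hn
    simp only [t]
    rw [← mul_assoc, hm n (not_lt.mp h), zero_mul, map_zero]
  let σ : Q →ₗ[R] (ℕ →₀ R) :=
    { toFun := fun x => Finsupp.ofSupportFinite _ (hfin' x)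
      map_add' := by
        intro x y
        ext1 n
        simp [Finsupp.ofSupportFinite_coe, add_mul]
      map_smul' := by
        intro r x
        ext1 n
        simp only [Finsupp.ofSupportFinite_coe, SetLike.val_smul, RingHom.id_apply,
          Finsupp.coe_smul, Pi.smul_apply]
        rw [← map_smul, Dor.smul_def, Dor.smul_def, mul_assoc] }
  let ρ : (ℕ →₀ R) →ₗ[R] Q := Finsupp.linearCombination R fun n => (⟨t n, htQ n⟩ : Q)
  refine Module.Projective.of_split σ ρ ?_
  apply LinearMap.ext
  intro x
  obtain ⟨m, hm⟩ := hfin x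
  have hsub : (σ x).support ⊆ Finset.range m := by
    intro n hn
    rw [Finsupp.mem_support_iff] at hn
    rw [Finset.mem_range]
    by_contra h
    apply hn
    change ι a ((x : S) * t n) = 0
    simp only [t]
    rw [← mul_assoc, hm n (not_lt.mp h), zero_mul, map_zero]
  apply Subtype.ext
  simp only [LinearMap.comp_apply, LinearMap.id_apply, ρ, Finsupp.linearCombination_apply]
  rw [Finsupp.sum_of_support_subset _ hsub _ (by simp)]
  simp only [AddSubmonoidClass.coe_finsetSum, SetLike.val_smul]
  have : ∀ n, (σ x) n • t n = (x : S) * t n := by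
    intro n
    change ι a ((x : S) * t n) • t n = _
    rw [Dor.smul_def, toS_ι, ← mul_assoc (e a), hQ _ x.2, mul_assoc, sq_self]
  simp only [this]
  rw [← Finset.mul_sum, hsum, mul_sub, hm m le_rfl]
  simp

theorem proj_of_le (L : Submodule R R) (hL : L ≤ Dor.TT) : Module.Projective R L := by
  let p : Ω → L →ₗ[R] S := fun a =>
    { toFun := fun x => ((x : R).t : Ω →₀ S) a
      map_add' := by intro x y; simp
      map_smul' := by
        intro c x
        have : (x : R).a = 0 := hL x.2
        simp [this, Dor.smul_def, Dor.toS_apply] }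
  refine projective_of_coords p ?_ ?_ ?_
  · intro x
    exact (((x : R).t : Ω →₀ S).support.finite_toSet).subset fun a ha =>
      Finsupp.mem_support_iff.mpr ha
  · intro x hx
    apply Subtype.ext
    apply Dor.ext
    · exact hL x.2
    · apply Subtype.ext
      exact Finsupp.ext hx
  · intro a
    refine proj_below a _ ?_
    rintro q ⟨x, -, rfl⟩
    exact (x : R).t.2 a

theorem hereditary (L : Submodule R R) : Module.Projective R L := by
  by_cases hL : L ≤ Dor.TT
  · exact proj_of_le L hL
  · obtain ⟨l, hl, hlT⟩ := SetLike.not_le_iff_exists.mp hL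
    have h1 : l.a = 1 := (K_cases _).resolve_left hlT
    refine projective_of_inf L Dor.TT l (1 - l) hl ?_ (by simp) (proj_of_le _ inf_le_right)
    rw [Dor.mem_TT, sub_eq_add_neg, Dor.add_a, Dor.neg_a, Dor.one_a, h1, add_neg_cancel]

theorem π_eventually_zero (t : T) : ∃ a, ∀ x, a < x → val (π t) x = 0 := by
  classical
  let F := insert (Classical.arbitrary Ω) (t : Ω →₀ S).support
  refine ⟨F.max' (Finset.insert_nonempty _ _), fun x hx => ?_⟩
  simp only [π, LinearMap.comp_apply, Submodule.subtype_apply, Finsupp.linearCombination_apply,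
    Finsupp.sum, smul_eq_mul, mul_one, map_sum, Finset.sum_apply]
  refine Finset.sum_eq_zero fun a ha => ?_
  have hle : a ≤ F.max' (Finset.insert_nonempty _ _) :=
    Finset.le_max' _ _ (Finset.mem_insert_of_mem ha)
  rw [← t.2 a, map_mul, val_e, Pi.mul_apply]
  simp [e0, not_le.mpr (lt_of_le_of_lt hle hx)]

theorem a_eq_zero_of_toS (x : R) (hx : Dor.toS x = 0) : x.a = 0 := by
  obtain ⟨a, ha⟩ := π_eventually_zero x.t
  obtain ⟨b, hb⟩ := exists_gt' a
  have h : val (Dor.toS x) b = 0 := by rw [hx, map_zero]; rfl
  rw [Dor.toS_apply, map_add, Pi.add_apply, ha b hb, add_zero, AlgHom.commutes] at h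
  exact h

theorem mul_eq_zero_of_toS (x y : R) (hx : Dor.toS x = 0) (hy : y.a = 0) : x * y = 0 := by
  apply Dor.ext
  · simp [hy]
  · rw [Dor.mul_t, ← Dor.toS_apply, hx, hy]
    simp

/-- Evaluation at a point. -/
noncomputable def ev (b : Ω) : R →+* K :=
  ((Pi.evalRingHom (fun _ : Ω => K) b).comp val.toRingHom).comp Dor.toS

theorem ev_apply (b : Ω) (x : R) : ev b x = val (Dor.toS x) b := rfl

end Pool.Agent.MP_f67ce1_al.Om
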