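import Mathlib
import Pool.Agent.MP_f67ce1_al.Omega

set_option autoImplicit false

namespace Pool.Agent.Results.MP_f67ce1_al.QuotientNotHereditary

/-- A ring is left hereditary if every left ideal is a projective left module. -/
def LeftHereditary (R : Type) [Ring R] : Prop :=
  ∀ I : Submodule R R, Module.Projective R I

/-- A proper two-sided ideal `Q` is prime if `a R b ⊆ Q` implies `a ∈ Q` or `b ∈ Q`. -/
def IsPrimeTwoSided {R : Type} [Ring R] (Q : TwoSidedIdeal R) : Prop :=
  Q ≠ ⊤ ∧ ∀ a b : R, (∀ r : R, a * r * b ∈ Q) → a ∈ Q ∨ b ∈ Q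

/-- The prime radical: the intersection of all prime two-sided ideals. -/
def primeRadical (R : Type) [Ring R] : TwoSidedIdeal R :=
  sInf {Q : TwoSidedIdeal R | IsPrimeTwoSided Q}

open Pool.Agent.MP_f67ce1_al Pool.Agent.MP_f67ce1_al.Om

theorem mem_rad_iff (x : R) : x ∈ primeRadical R ↔ Dor.toS x = 0 := by
  unfold primeRadical
  rw [TwoSidedIdeal.mem_sInf]
  constructor
  · intro h
    apply val_injective
    funext b
    have hp : IsPrimeTwoSided (TwoSidedIdeal.ker (ev b)) := by
      refine ⟨?_, fun u v huv => ?_⟩
      · intro htop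
        have : (1 : R) ∈ TwoSidedIdeal.ker (ev b) := by rw [htop]; trivial
        rw [TwoSidedIdeal.mem_ker, map_one] at this
        exact one_ne_zero this
      · have := huv 1
        rw [TwoSidedIdeal.mem_ker, mul_one, map_mul] at this
        simp only [TwoSidedIdeal.mem_ker]
        rcases K_cases (ev b u) with h | h
        · exact Or.inl h
        · rw [h, one_mul] at this
          exact Or.inr this
    have := h _ hp
    rw [TwoSidedIdeal.mem_ker, ev_apply] at this
    rw [this, map_zero]
    rfl
  · intro h Q hQ
    have := hQ.2 x x fun r => by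
      have h0 : x * (r * x) = 0 :=
        mul_eq_zero_of_toS _ _ h (by rw [Dor.mul_a, a_eq_zero_of_toS x h, mul_zero])
      rw [mul_assoc, h0]
      exact Q.zero_mem
    exact this.elim id id

/-- There is a left hereditary ring whose prime radical has square zero and whose quotient by the
prime radical is not left hereditary. -/
theorem result :
    ∃ (R : Type) (_ : Ring R), LeftHereditary R ∧
      (∀ x ∈ primeRadical R, ∀ y ∈ primeRadical R, x * y = 0) ∧
      ¬ LeftHereditary (primeRadical R).ringCon.Quotient := by
  refine ⟨R, inferInstance, hereditary, fun x hx y hy => ?_, fun h => ?_⟩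
  · exact mul_eq_zero_of_toS x y ((mem_rad_iff x).mp hx)
      (a_eq_zero_of_toS y ((mem_rad_iff y).mp hy))
  · let q : R →+* (primeRadical R).ringCon.Quotient := RingCon.mk' _
    have hq : ∀ x y : R, q x = q y ↔ Dor.toS x = Dor.toS y := by
      intro x y
      change ((x : (primeRadical R).ringCon.Quotient) = y) ↔ _
      rw [RingCon.eq, TwoSidedIdeal.rel_iff, mem_rad_iff, map_sub, sub_eq_zero]
    have hqs : Function.Surjective q := fun z => by
      obtain ⟨x, rfl⟩ := Quot.exists_rep z
      exact ⟨x, rfl⟩
    refine not_projective_chain (Ω := Ω) (fun a => ?_) (fun a => q (ι a 1)) ?_ ?_ (h _)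
    · obtain ⟨b, hb⟩ := exists_gt_all a
      exact ⟨b, fun n => (hb n).le⟩
    · intro a b hab
      rw [← map_mul, hq, map_mul, toS_ι, toS_ι, mul_one, mul_one, e_mul a b hab]
    · intro a
      obtain ⟨b, hb⟩ := exists_gt' a
      refine ⟨b, fun r hr => ?_⟩
      obtain ⟨r, rfl⟩ := hqs r
      rw [← map_mul, hq, map_mul, toS_ι, toS_ι, mul_one, mul_one] at hr
      have := congrFun (congrArg val hr) b
      rw [map_mul, val_e, val_e, Pi.mul_apply] at this
      simp [e0, not_le.mpr hb] at this

end Pool.Agent.Results.MP_f67ce1_al.QuotientNotHereditary
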