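import Mathlib.Algebra.Module.Defs
import Mathlib.GroupTheory.GroupAction.Ring
import Mathlib.Algebra.Algebra.ZMod
import Mathlib.Algebra.Field.ZMod
import Pool.Agent.MP_f67ce1_al.Kaplansky

set_option autoImplicit false

namespace Pool.Agent.MP_f67ce1_al.Tri

open Pool.Agent.MP_f67ce1_al

/-- The field with two elements. -/
abbrev K := ZMod 2

/-- The space of finitely supported sequences. -/
abbrev V := ℕ →₀ K

/-- Standard basis vectors. -/
noncomputable def e (j : ℕ) : V := Finsupp.single j 1

theorem K_cases (c : K) : c = 0 ∨ c = 1 := by revert c; decide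

theorem end_ext {f g : Module.End K V} (h : ∀ j, f (e j) = g (e j)) : f = g := by
  apply Finsupp.lhom_ext'
  intro j
  apply LinearMap.ext_ring
  exact h j

/-- Upper triangular operators preserve the standard flag. -/
theorem tri_apply {f : Module.End K V} (hf : ∀ j i, j < i → f (e j) i = 0) (v : V) (j : ℕ)
    (hv : ∀ i, j < i → v i = 0) (i : ℕ) (hi : j < i) : f v i = 0 := by
  have hv' : v = ∑ a ∈ v.support, v a • e a := by
    conv_lhs => rw [← Finsupp.sum_single v]
    simp [Finsupp.sum, e]
  rw [hv', map_sum, Finsupp.finsetSum_apply]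
  refine Finset.sum_eq_zero fun a ha => ?_
  have ha' : a ≤ j := by
    by_contra h
    exact (Finsupp.mem_support_iff.mp ha) (hv a (not_le.mp h))
  rw [map_smul, Finsupp.smul_apply, hf a i (lt_of_le_of_lt ha' hi), smul_zero]

/-- Scalars plus finitary upper triangular `ℕ × ℕ` matrices. -/
def RR : Subring (Module.End K V) where
  carrier := {f | (∀ j i, j < i → f (e j) i = 0) ∧ ∃ (c : K) (n : ℕ), ∀ j, n ≤ j → f (e j) = c • e j}
  mul_mem' := by
    rintro f g ⟨hf, c, n, hfc⟩ ⟨hg, d, m, hgd⟩
    refine ⟨fun j i hji => tri_apply hf _ j (hg j) i hji, c * d, max n m, fun j hj => ?_⟩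
    rw [Module.End.mul_apply, hgd j (le_trans (le_max_right _ _) hj), map_smul,
      hfc j (le_trans (le_max_left _ _) hj), smul_smul, mul_comm]
  one_mem' := by
    refine ⟨fun j i hji => ?_, 1, 0, fun j _ => by simp⟩
    simp [e, hji.ne']
  add_mem' := by
    rintro f g ⟨hf, c, n, hfc⟩ ⟨hg, d, m, hgd⟩
    refine ⟨fun j i hji => by simp [hf j i hji, hg j i hji], c + d, max n m, fun j hj => ?_⟩
    rw [LinearMap.add_apply, hgd j (le_trans (le_max_right _ _) hj),
      hfc j (le_trans (le_max_left _ _) hj), add_smul]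
  zero_mem' := ⟨fun j i _ => by simp, 0, 0, fun j _ => by simp⟩
  neg_mem' := by
    rintro f ⟨hf, c, n, hfc⟩
    refine ⟨fun j i hji => by simp [hf j i hji], -c, n, fun j hj => ?_⟩
    rw [LinearMap.neg_apply, hfc j hj, neg_smul]

/-- The ring. -/
abbrev R : Type := RR

theorem smul_def (f : R) (v : V) : f • v = (f : Module.End K V) v := rfl

/-- The operator whose only nonzero column is the `i`-th one, equal to `v`. -/
noncomputable def col (i : ℕ) (v : V) : Module.End K V := (Finsupp.lapply i).smulRight v

theorem col_apply (i : ℕ) (v w : V) : col i v w = w i • v := rfl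

theorem col_mem (i : ℕ) (v : V) (hv : ∀ a, i < a → v a = 0) : col i v ∈ RR := by
  refine ⟨fun j a hja => ?_, 0, i + 1, fun j hj => ?_⟩
  · rw [col_apply, Finsupp.smul_apply]
    by_cases h : j = i
    · subst h; rw [hv a hja, smul_zero]
    · simp [e, Ne.symm h]
  · have : i ≠ j := by omega
    simp [col_apply, e, this]

/-- Every submodule of `V` with bounded support is projective. -/
theorem proj_of_bounded (Q : Submodule R V) (j : ℕ) (hQ : ∀ q ∈ Q, ∀ a, j < a → q a = 0) :
    Module.Projective R Q := by
  classical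
  by_cases h0 : ∀ q ∈ Q, q = 0
  · have : Subsingleton Q := ⟨fun a b => Subtype.ext (by rw [h0 _ a.2, h0 _ b.2])⟩
    infer_instance
  push Not at h0
  obtain ⟨q1, hq1, hq1ne⟩ := h0
  obtain ⟨a1, ha1⟩ : ∃ a, q1 a ≠ 0 := by
    by_contra h
    push Not at h
    exact hq1ne (Finsupp.ext h)
  let P : ℕ → Prop := fun a => ∃ q ∈ Q, q a ≠ 0
  have ha1j : a1 ≤ j := by
    by_contra h
    exact ha1 (hQ q1 hq1 a1 (not_le.mp h))
  let i := Nat.findGreatest P j
  obtain ⟨q0, hq0, hq0i⟩ : P i := Nat.findGreatest_spec (P := P) ha1j ⟨q1, hq1, ha1⟩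
  have hq0i' : q0 i = 1 := (K_cases _).resolve_left hq0i
  have hb : ∀ q ∈ Q, ∀ a, i < a → q a = 0 := by
    intro q hq a ha
    by_contra hne
    rcases le_or_gt a j with h | h
    · exact Nat.findGreatest_is_greatest ha h ⟨q, hq, hne⟩
    · exact hne (hQ q hq a h)
  let σ : Q →ₗ[R] R :=
    { toFun := fun v => ⟨col i v, col_mem i v (hb v v.2)⟩
      map_add' := by
        intro x y
        apply Subtype.ext
        apply LinearMap.ext
        intro w
        simp [col_apply]
      map_smul' := by
        intro c x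
        apply Subtype.ext
        apply LinearMap.ext
        intro w
        simp [col_apply, smul_def] }
  let ρ : R →ₗ[R] Q := LinearMap.toSpanSingleton R Q ⟨q0, hq0⟩
  refine Module.Projective.of_split σ ρ ?_
  apply LinearMap.ext
  intro v
  apply Subtype.ext
  simp [σ, ρ, smul_def, col_apply, hq0i']

/-- The finitary part. -/
def T : Submodule R R where
  carrier := {f | ∃ n : ℕ, ∀ j, n ≤ j → (f : Module.End K V) (e j) = 0}
  add_mem' := by
    rintro f g ⟨n, hn⟩ ⟨m, hm⟩
    refine ⟨max n m, fun j hj => ?_⟩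
    simp [hn j (le_trans (le_max_left _ _) hj), hm j (le_trans (le_max_right _ _) hj)]
  zero_mem' := ⟨0, fun j _ => by simp⟩
  smul_mem' := by
    rintro c f ⟨n, hn⟩
    exact ⟨n, fun j hj => by simp [hn j hj]⟩

theorem proj_of_le (L : Submodule R R) (hL : L ≤ T) : Module.Projective R L := by
  let p : ℕ → L →ₗ[R] V := fun j => (LinearMap.toSpanSingleton R V (e j)) ∘ₗ L.subtype
  have hp : ∀ j (x : L), p j x = ((x : R) : Module.End K V) (e j) := fun j x => rfl
  refine projective_of_coords p ?_ ?_ ?_
  · intro x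
    obtain ⟨n, hn⟩ := hL x.2
    refine (Set.finite_lt_nat n).subset fun j hj => ?_
    by_contra h
    exact hj (hn j (not_lt.mp h))
  · intro x hx
    apply Subtype.ext
    apply Subtype.ext
    exact end_ext hx
  · intro j
    refine proj_of_bounded _ j ?_
    rintro q ⟨x, -, rfl⟩ a ha
    exact (x : R).2.1 j a ha

theorem hereditary (L : Submodule R R) : Module.Projective R L := by
  by_cases hL : L ≤ T
  · exact proj_of_le L hL
  · obtain ⟨l, hl, hlT⟩ := SetLike.not_le_iff_exists.mp hL
    obtain ⟨-, c, n, hc⟩ := l.2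
    rcases K_cases c with rfl | rfl
    · exact absurd ⟨n, fun j hj => by simpa using hc j hj⟩ hlT
    · refine projective_of_inf L T l (1 - l) hl ⟨n, fun j hj => ?_⟩ (by simp)
        (proj_of_le _ inf_le_right)
      simp [hc j hj]

/-- The matrix unit `E (i, i+1)`. -/
noncomputable def E (i : ℕ) : R :=
  ⟨col (i + 1) (e i), col_mem _ _ (fun a ha => by
    have : a ≠ i := by omega
    simp [e, this])⟩

theorem E_mul_mul (i : ℕ) (r : R) : E i * r * E i = 0 := by
  apply Subtype.ext
  apply LinearMap.ext
  intro w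
  have : (r : Module.End K V) (e i) (i + 1) = 0 := r.2.1 i (i + 1) (Nat.lt_succ_self i)
  simp [E, col_apply, this]

theorem prod_E (n : ℕ) :
    ((((List.range n).map E).prod : R) : Module.End K V) (e n) = e 0 := by
  induction n with
  | zero => simp
  | succ n ih =>
    rw [List.range_succ, List.map_append, List.prod_append]
    simp only [List.map_cons, List.map_nil, List.prod_cons, List.prod_nil, mul_one,
      MulMemClass.coe_mul, Module.End.mul_apply]
    have : ((E n : R) : Module.End K V) (e (n + 1)) = e n := by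
      simp [E, col_apply, e]
    rw [this, ih]

theorem prod_E_ne (n : ℕ) : (((List.range n).map E).prod : R) ≠ 0 := by
  intro h
  have := prod_E n
  rw [h] at this
  have h2 := congrArg (fun v : V => v 0) this
  simp [e] at h2

end Pool.Agent.MP_f67ce1_al.Tri
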