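import Mathlib
import Pool.Agent.MP_f67ce1_al.Triangular

set_option autoImplicit false

namespace Pool.Agent.Results.MP_f67ce1_al.RadicalNotNilpotent

/-- A ring is left hereditary if every left ideal is a projective left module. -/
def LeftHereditary (R : Type) [Ring R] : Prop :=
  ∀ I : Submodule R R, Module.Projective R I

/-- A proper two-sided ideal `Q` is prime if `a R b ⊆ Q` implies `a ∈ Q` or `b ∈ Q`. -/
def IsPrimeTwoSided {R : Type} [Ring R] (Q : TwoSidedIdeal R) : Prop :=
  Q ≠ ⊤ ∧ ∀ a b : R, (∀ r : R, a * r * b ∈ Q) → a ∈ Q ∨ b ∈ Q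

/-- The prime radical: the intersection of all prime two-sided ideals. -/
def primeRadical (R : Type) [Ring R] : TwoSidedIdeal R :=
  sInf {Q : TwoSidedIdeal R | IsPrimeTwoSided Q}

open Pool.Agent.MP_f67ce1_al.Tri

/-- There is a left hereditary ring whose prime radical is not nilpotent: for every `n` some product
of `n` elements of the prime radical is nonzero. -/
theorem result :
    ∃ (R : Type) (_ : Ring R), LeftHereditary R ∧
      ∀ n : ℕ, ∃ l : List R, l.length = n ∧ (∀ x ∈ l, x ∈ primeRadical R) ∧ l.prod ≠ 0 := by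
  refine ⟨R, inferInstance, hereditary, fun n => ⟨(List.range n).map E, by simp, ?_, prod_E_ne n⟩⟩
  intro x hx
  obtain ⟨i, -, rfl⟩ := List.mem_map.mp hx
  unfold primeRadical
  rw [TwoSidedIdeal.mem_sInf]
  intro Q hQ
  have := hQ.2 _ _ (fun r => by rw [E_mul_mul i r]; exact Q.zero_mem)
  exact this.elim id id

end Pool.Agent.Results.MP_f67ce1_al.RadicalNotNilpotent
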